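import Pool.Agent.H78.XQ.Targets

/-!
# XQ board, module POW: parallel repetition
-/

set_option autoImplicit false

namespace Pool.Agent.H48.XQ

open Finset Pool.Agent.H78.XQ Pool.Agent.H6.NB Pool.Agent.H70.OQ Pool.Agent.H70.EH Pool.Agent.H70.EI
open scoped Matrix

/-- The phase of a product state is the product of the phases. -/
theorem pow_phase (A : XAlg) (R : ℕ) (O : List Bool → Bool) (z : Fin R → A.basis) :
    (pow A R).phase O z = ∏ i, A.phase O (z i) := by
  show (((List.ofFn fun i => A.query (z i)).flatten).map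
    fun w => if O w then (-1 : ℂ) else 1).prod = _
  rw [List.map_flatten, List.prod_flatten, List.map_map, List.map_ofFn, List.prod_ofFn]
  rfl

/-- The tensor power of a matrix applied to a product vector. -/
theorem tpow_mulVec {B : Type} [Fintype B] [DecidableEq B] (R : ℕ) (M : Matrix B B ℂ) (v : B → ℂ) :
    (tpow R M *ᵥ fun z : Fin R → B => ∏ i, v (z i)) = fun z => ∏ i, (M *ᵥ v) (z i) := by
  funext z
  show ∑ y : Fin R → B, (∏ i, M (z i) (y i)) * (∏ i, v (y i)) = ∏ i, ∑ y : B, M (z i) y * v y
  rw [Fintype.prod_sum (fun (i : Fin R) (y : B) => M (z i) y * v y)]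
  refine Finset.sum_congr rfl fun y _ => ?_
  rw [Finset.prod_mul_distrib]

/-- The state of the parallel repetition is the tensor power of the state. -/
theorem pow_state (A : XAlg) (R : ℕ) (O : List Bool → Bool) (t : ℕ) :
    (pow A R).state O t = fun z : Fin R → A.basis => ∏ i, A.state O t (z i) := by
  induction t with
  | zero => exact tpow_mulVec R (A.U 0) A.init
  | succ t ih =>
    have h1 : (pow A R).state O (t + 1) = tpow R (A.U (t + 1)) *ᵥ
        fun z : Fin R → A.basis => (pow A R).phase O z * (pow A R).state O t z := rfl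
    have h2 : (fun z : Fin R → A.basis => (pow A R).phase O z * (pow A R).state O t z) =
        fun z => ∏ i, (A.phase O (z i) * A.state O t (z i)) := by
      funext z
      rw [pow_phase, ih, Finset.prod_mul_distrib]
    rw [h1, h2]
    exact tpow_mulVec R (A.U (t + 1)) fun i => A.phase O i * A.state O t i

theorem pow_prob : T_POW := by
  intro A R O
  have h0 : (pow A R).prob O = ∑ z ∈ (Finset.univ.filter fun z : Fin R → A.basis => ∀ i, z i ∈ A.acc),
      ‖(pow A R).state O A.T z‖ ^ 2 := rfl
  have h1 : A.prob O = ∑ y : A.basis, if y ∈ A.acc then ‖A.state O A.T y‖ ^ 2 else 0 := by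
    rw [XAlg.prob, Finset.sum_ite_mem, Finset.univ_inter]
  rw [h0, pow_state, Finset.sum_filter, h1, ← Fin.prod_const R,
    Fintype.prod_sum (fun (_ : Fin R) (y : A.basis) => if y ∈ A.acc then ‖A.state O A.T y‖ ^ 2 else 0)]
  refine Finset.sum_congr rfl fun z _ => ?_
  by_cases hz : ∀ i, z i ∈ A.acc
  · rw [if_pos hz, norm_prod, ← Finset.prod_pow]
    exact Finset.prod_congr rfl fun i _ => (if_pos (hz i)).symm
  · rw [if_neg hz]
    push Not at hz
    obtain ⟨i, hi⟩ := hz
    exact (Finset.prod_eq_zero (Finset.mem_univ i) (if_neg hi)).symm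

end Pool.Agent.H48.XQ
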